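import Pool.Agent.helper52.EU.SpecK
import Pool.Agent.helper72.BP.PF3

/-!
# Row `eu:KRB` (MP_ad8ced_nt): three cells (auxiliary lemmas as in helper22/EU/KCB.lean)
-/

set_option autoImplicit false

open Finset

namespace Pool.Agent.EU

open Pool.Agent.FI Pool.Agent.HK Pool.Agent.BP Pool.Agent.YB
open Pool.Agent.CH (nit rgh)

private theorem KRB_xi (q : ℕ) (ξ : ℤ × ℤ → ℂ) (h : IsX q ξ) (z : ℤ × ℤ) : ‖ξ z‖ ≤ 1 := by
  by_cases hz : Nat.Coprime (nn z) q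
  · exact (h.2.2.2.2.2 z hz).le
  · rw [h.2.2.2.2.1 z hz]
    simp

private theorem KRB_s1 (z : ℤ × ℤ) (i : ℕ) : ‖s1 z ^ i‖ ≤ 1 := by
  rw [norm_pow]
  refine pow_le_one₀ (norm_nonneg _) ?_
  unfold s1
  split_ifs <;> simp

private theorem KRB_sg (z : ℤ × ℤ) (i : ℕ) : ‖((N8 z).sign : ℂ) ^ i‖ ≤ 1 := by
  rw [norm_pow]
  refine pow_le_one₀ (norm_nonneg _) ?_
  rcases lt_trichotomy (N8 z) 0 with h | h | h
  · rw [Int.sign_eq_neg_one_of_neg h]; simp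
  · rw [h]; simp
  · rw [Int.sign_eq_one_of_pos h]; simp

private theorem KRB_mul3 (a b c : ℂ) (ha : ‖a‖ ≤ 1) (hb : ‖b‖ ≤ 1) (hc : ‖c‖ ≤ 1) : ‖a * b * c‖ ≤ 1 := by
  rw [norm_mul, norm_mul]
  exact mul_le_one₀ (mul_le_one₀ ha (norm_nonneg _) hb) (norm_nonneg _) hc

private theorem KRB_HX (q : ℕ) (ξ : ℤ × ℤ → ℂ) (h : IsX q ξ) (i₁ i : ℕ) (κ : ℝ) (z : ℤ × ℤ) : ‖HX ξ i₁ i κ z‖ ≤ 1 := by
  unfold HX
  rw [norm_mul]
  refine mul_le_one₀ (KRB_mul3 _ _ _ (KRB_xi q ξ h z) (KRB_s1 z i₁) (KRB_sg z i)) (norm_nonneg _) ?_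
  have e : (κ : ℂ) * (yy z : ℂ) * Complex.I = ((κ * yy z : ℝ) : ℂ) * Complex.I := by push_cast; ring
  rw [e, Complex.norm_exp_ofReal_mul_I]

/-- the family `HX * nit` -/
private theorem KRB_fam (hUHX : UHX_stmt) (x q B : ℕ) (ξ : ℤ × ℤ → ℂ) (i₁ i : ℕ) (α t : ℝ) (h : Dta x q B ξ i₁ i α) :
    FamX α (fun m z => HX ξ i₁ i (fr α m) z * nit t (nn z))
      (fun z => ξ z * s1 z ^ i₁ * ((N8 z).sign : ℂ) ^ i * nit t (nn z)) := by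
  obtain ⟨hξ, hq, hi₁, hi, hα0, hα, hinv⟩ := h
  refine ⟨fun m => ?_, fun z => ?_, fun m z _ => ?_⟩
  · have h := hUHX.1 q ξ i₁ i (fr α m) hξ (hinv m)
    refine ⟨?_, ?_⟩
    · intro z w hz hw
      show HX ξ i₁ i (fr α m) (mul8 z w) * nit t (nn (mul8 z w)) =
        (HX ξ i₁ i (fr α m) z * nit t (nn z)) * (HX ξ i₁ i (fr α m) w * nit t (nn w))
      rw [h.1 z w hz hw, PF3_nn, PF3_nit t _ _ (PF3_odd z hz) (PF3_odd w hw)]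
      ring
    · intro u hu
      show HX ξ i₁ i (fr α m) u * nit t (nn u) = 1
      rw [h.2.1 u hu]
      have h1 : nn u = 1 := by
        unfold nn
        rw [hu]
        rfl
      rw [h1]
      unfold nit
      simp
  · show ‖ξ z * s1 z ^ i₁ * ((N8 z).sign : ℂ) ^ i * nit t (nn z)‖ ≤ 1
    rw [norm_mul, PF3_nit_norm, mul_one]
    exact KRB_mul3 _ _ _ (KRB_xi q ξ hξ z) (KRB_s1 z i₁) (KRB_sg z i)
  · show HX ξ i₁ i (fr α m) z * nit t (nn z) = _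
    unfold HX
    push_cast
    ring

private theorem KRB_sh (w Ψ : ℤ × ℤ → ℂ) (t : ℝ) (a b : ℕ) :
    Sh w Ψ t a b = ∑ z ∈ FF b, (if a < nn z then w z else 0) * (Ψ z * nit t (nn z)) := by
  unfold Sh
  rw [Finset.sum_filter]
  refine sum_congr rfl fun z _ => ?_
  split_ifs <;> simp

private theorem KRB_mem (hSIZ : SIZ_stmt) (u : ℕ) (z : ℤ × ℤ) : z ∈ FF u ↔ Fd z ∧ nn z ≤ u := by
  classical
  unfold FF
  rw [mem_filter]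
  refine ⟨fun h => h.2, fun h => ⟨?_, h⟩⟩
  have h1 := (hSIZ z h.1).2.2.2.1
  unfold FF at h1
  have h2 := (mem_filter.1 h1).1
  have h3 : (nn z : ℤ) ≤ u := by exact_mod_cast h.2
  rw [mem_product, mem_Icc, mem_Icc] at h2 ⊢
  obtain ⟨⟨h4, h5⟩, h6, h7⟩ := h2
  refine ⟨⟨by linarith, by linarith⟩, by linarith, by linarith⟩

private theorem KRB_cut (hSIZ : SIZ_stmt) (w Ψ : ℤ × ℤ → ℂ) (t : ℝ) (a b V : ℕ) :
    Sh (ct V w) Ψ t a b = Sh w Ψ t a (min b V) := by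
  classical
  unfold Sh ct
  have h1 : ∀ z ∈ (FF b).filter (fun z => a < nn z), (if nn z ≤ V then w z else 0) * (Ψ z * nit t (nn z)) =
      if nn z ≤ V then w z * (Ψ z * nit t (nn z)) else 0 := by
    intro z _
    split_ifs <;> simp
  rw [sum_congr rfl h1, ← Finset.sum_filter, Finset.filter_filter]
  refine sum_congr ?_ fun _ _ => rfl
  ext z
  rw [mem_filter, mem_filter, KRB_mem hSIZ, KRB_mem hSIZ, le_min_iff]
  tauto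

private theorem KRB_zero (w Ψ : ℤ × ℤ → ℂ) (t : ℝ) (a b : ℕ) (h : ∀ z ∈ FF b, a < nn z → w z = 0) : Sh w Ψ t a b = 0 := by
  unfold Sh
  refine sum_eq_zero fun z hz => ?_
  rw [mem_filter] at hz
  rw [h z hz.1 hz.2, zero_mul]

private theorem KRB_triv (hFFC : FFC_stmt) (w Ψ : ℤ × ℤ → ℂ) (t W : ℝ) (a b : ℕ) (hW : 0 ≤ W)
    (hw : ∀ z ∈ FF b, ‖w z‖ ≤ W) (hΨ : ∀ z, ‖Ψ z‖ ≤ 1) : ‖Sh w Ψ t a b‖ ≤ 25 * b * W := by
  unfold Sh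
  refine (norm_sum_le _ _).trans ?_
  have h1 : ∀ z ∈ (FF b).filter (fun z => a < nn z), ‖w z * (Ψ z * nit t (nn z))‖ ≤ W := by
    intro z hz
    rw [mem_filter] at hz
    rw [norm_mul, norm_mul, PF3_nit_norm, mul_one]
    calc ‖w z‖ * ‖Ψ z‖ ≤ W * 1 := mul_le_mul (hw z hz.1) (hΨ z) (norm_nonneg _) hW
      _ = W := mul_one _
  refine (sum_le_card_nsmul _ _ _ h1).trans ?_
  rw [nsmul_eq_mul]
  refine mul_le_mul_of_nonneg_right ?_ hW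
  refine le_trans ?_ (hFFC b).1
  exact_mod_cast card_filter_le _ _

/-- the mean value of two cells -/
private theorem KRB_mv (hPMX : PMX_stmt) : ∃ (C : ℝ) (E : ℕ), 0 < C ∧ ∀ (α : ℝ) (H : ℤ → ℤ × ℤ → ℂ) (t : ℝ) (c : ℤ × ℤ → ℂ),
    FamX α (fun m z => H m z * nit t (nn z)) c → ∀ (M₁ : ℕ) (w w' : ℤ × ℤ → ℂ) (a b a' b' : ℕ), 1 ≤ M₁ → (∀ z, ‖w z‖ ≤ 1) → (∀ z, ‖w' z‖ ≤ 1) → 1 ≤ b → 1 ≤ b' →
    ∑ m ∈ Icc (-(M₁ : ℤ)) M₁, ‖Sh w (H m) t a b‖ ^ 2 * ‖Sh w' (H m) t a' b'‖ ^ 2 ≤ C * (M₁ + b * b') * (b * b') * (1 + Real.log (b * b')) ^ E := by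
  obtain ⟨C, E, hC, h⟩ := hPMX 2
  refine ⟨C, E, hC, ?_⟩
  intro α H t c hF M₁ w w' a b a' b' hM₁ hw hw' hb hb'
  have h1 := h α _ c hF M₁ 1 ![fun z => if a < nn z then w z else 0, fun z => if a' < nn z then w' z else 0] ![b, b'] hM₁ le_rfl ?_ ?_
  · simp only [Fin.prod_univ_two, Matrix.cons_val_zero, Matrix.cons_val_one, one_pow, mul_one] at h1
    refine le_trans (le_of_eq ?_) h1
    refine sum_congr rfl fun m _ => ?_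
    rw [KRB_sh, KRB_sh]
  · intro k z
    fin_cases k
    · show ‖if a < nn z then w z else 0‖ ≤ 1
      split_ifs
      · exact hw z
      · simp
    · show ‖if a' < nn z then w' z else 0‖ ≤ 1
      split_ifs
      · exact hw' z
      · simp
  · intro k
    fin_cases k
    · exact hb
    · exact hb'

private theorem KRB_wm (Z : ℝ) (z : ℤ × ℤ) : ‖wm Z z‖ ≤ 1 := by
  unfold wm
  split_ifs
  · rw [Complex.norm_real]
    exact PF3_mue z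
  · simp

private theorem KRB_ctm (V : ℕ) (Z : ℝ) (z : ℤ × ℤ) : ‖ct V (wm Z) z‖ ≤ 1 := by
  unfold ct
  split_ifs
  · exact KRB_wm Z z
  · simp

private theorem KRB_fin (L K₀ N : ℝ) (A E : ℕ) (hL : 1 ≤ L) (hK : K₀ ≤ L) :
    K₀ * N ^ 2 * L ^ (E + 2) / (L ^ (A + E + 3)) ^ 2 ≤ N ^ 2 / L ^ A := by
  have hL0 : 0 < L := by linarith
  rw [div_le_div_iff₀ (by positivity) (by positivity)]
  have h1 : K₀ * L ^ (E + 2) * L ^ A ≤ (L ^ (A + E + 3)) ^ 2 := by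
    calc K₀ * L ^ (E + 2) * L ^ A ≤ L * L ^ (E + 2) * L ^ A := by gcongr
      _ = L ^ (A + E + 3) := by ring
      _ ≤ (L ^ (A + E + 3)) ^ 2 := by
        have h2 : 1 ≤ L ^ (A + E + 3) := one_le_pow₀ hL
        nlinarith
  calc K₀ * N ^ 2 * L ^ (E + 2) * L ^ A = N ^ 2 * (K₀ * L ^ (E + 2) * L ^ A) := by ring
    _ ≤ N ^ 2 * (L ^ (A + E + 3)) ^ 2 := mul_le_mul_of_nonneg_left h1 (sq_nonneg _)

private theorem KRB_lep : 1 ≤ lep := by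
  unfold lep
  rw [Real.le_log_iff_exp_le (by positivity)]
  have h1 := Real.exp_one_lt_d9
  have h2 : 0 ≤ √(8 : ℝ) := Real.sqrt_nonneg _
  linarith

private theorem KRB_frb (α : ℝ) (m : ℤ) (M₁ : ℕ) (h0 : 0 ≤ α) (h1 : α < 2 * Real.pi) (hM : 1 ≤ M₁)
    (hm : m ∈ Icc (-(M₁ : ℤ)) M₁) : |fr α m| ≤ 8 * M₁ := by
  have hl := KRB_lep
  have hp := Real.pi_pos
  have hp4 := Real.pi_lt_four
  have hM' : (1 : ℝ) ≤ M₁ := by exact_mod_cast hM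
  rw [mem_Icc] at hm
  have hm1 : -(M₁ : ℝ) ≤ m := by exact_mod_cast hm.1
  have hm2 : (m : ℝ) ≤ M₁ := by exact_mod_cast hm.2
  unfold fr
  rw [abs_div, abs_of_pos (by linarith : (0 : ℝ) < 2 * lep), div_le_iff₀ (by linarith)]
  have h2 : |α + 2 * Real.pi * m| ≤ 16 * M₁ := by
    rw [abs_le]
    constructor <;> nlinarith
  refine h2.trans ?_
  nlinarith

private theorem KRB_w1 (Z : ℝ) (z : ℤ × ℤ) : ‖w1 Z z‖ ≤ 1 := by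
  unfold w1
  split_ifs <;> simp

theorem KRB (hSUM : SUM_stmt) (hLRS : LRS_stmt) (hPMX : PMX_stmt) (hUHX : UHX_stmt) (hFFC : FFC_stmt) (hSIZ : SIZ_stmt) : KRB_stmt := by
  intro η hη hη1 A B C₀ hC₀
  obtain ⟨C, E, hC, hMV⟩ := KRB_mv hPMX
  obtain ⟨ε, hε⟩ : ∃ ε : ℝ, ε = η / 60 := ⟨_, rfl⟩
  have hε0 : 0 < ε := by rw [hε]; positivity
  obtain ⟨x₁, hx₁⟩ := hSUM (A + E + 3) B 4 C₀ (ε / 2) (half_pos hε0)
  obtain ⟨x₂, hx₂⟩ := hLRS (η - 3 * ε) (by rw [hε]; linarith) (by linarith) (A + 1) B C₀ hC₀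
  obtain ⟨K₀, hK₀⟩ : ∃ K₀ : ℝ, K₀ = 8 * C * 4 ^ E + 1562500 := ⟨_, rfl⟩
  have hlog : Filter.Tendsto (fun x : ℕ => Real.log (x : ℝ)) Filter.atTop Filter.atTop :=
    Real.tendsto_log_atTop.comp tendsto_natCast_atTop_atTop
  have hpd : Filter.Tendsto (fun x : ℕ => (x : ℝ) ^ (ε / 2)) Filter.atTop Filter.atTop :=
    (tendsto_rpow_atTop (half_pos hε0)).comp tendsto_natCast_atTop_atTop
  obtain ⟨x₀, hx₀⟩ := Filter.eventually_atTop.1 ((hlog.eventually_ge_atTop 1).and ((hlog.eventually_ge_atTop K₀).and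
    ((hpd.eventually_ge_atTop 16).and ((Filter.eventually_ge_atTop 16).and
    ((Filter.eventually_ge_atTop x₁).and (Filter.eventually_ge_atTop x₂))))))
  refine ⟨x₀, ?_⟩
  intro x hx q ξ i₁ i α t Z N M₁ z₀ hDta hZ8 hZ hM₁ hMN hNx hz₀ ht T hT hTm a₁ b₁ a₂ b₂ a₃ b₃ hc₁ hc₂ hc₃ hN8 hN2
  obtain ⟨hL1, hLK, hxd, hx16, hxx₁, hxx₂⟩ := hx₀ x hx
  obtain ⟨L, hLdef⟩ : ∃ L, L = Real.log (x : ℝ) := ⟨_, rfl⟩
  rw [← hLdef] at hL1 hLK hZ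
  rw [← hLdef]
  have hDta' := hDta
  obtain ⟨hξ, hqB, hi₁, hi, hα0, hα, hinv⟩ := hDta
  have hx1 : (16 : ℝ) ≤ x := by exact_mod_cast hx16
  have hx0 : (0 : ℝ) < x := by linarith
  have hM1 : (1 : ℝ) ≤ M₁ := by exact_mod_cast hM₁
  have hM1s : (1 : ℝ) ≤ (M₁ : ℝ) ^ 2 := one_le_pow₀ hM1
  have hNx' : (N : ℝ) ≤ (x : ℝ) ^ 2 := by exact_mod_cast hNx
  have hxε : (x : ℝ) ^ ε = (x : ℝ) ^ (ε / 2) * (x : ℝ) ^ (ε / 2) := by
    rw [← Real.rpow_add hx0]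
    congr 1
    ring
  have hxε16 : 16 * (x : ℝ) ^ (ε / 2) ≤ (x : ℝ) ^ ε := by
    rw [hxε]
    nlinarith
  have hxε256 : 256 ≤ (x : ℝ) ^ ε := by linarith
  have hxη : (x : ℝ) ^ (2 * ε) ≤ (x : ℝ) ^ η :=
    Real.rpow_le_rpow_of_exponent_le (by linarith) (by rw [hε]; linarith)
  have hx2ε : (x : ℝ) ^ (2 * ε) = (x : ℝ) ^ ε * (x : ℝ) ^ ε := by
    rw [← Real.rpow_add hx0]
    congr 1
    ring
  have hxη2 : (256 : ℝ) * 256 ≤ (x : ℝ) ^ η := by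
    rw [hx2ε] at hxη
    refine le_trans ?_ hxη
    exact mul_le_mul hxε256 hxε256 (by norm_num) (by linarith)
  have hMN : (M₁ : ℝ) ^ 2 * (x : ℝ) ^ η ≤ N := hMN
  have hMN8 : (256 * 256 : ℝ) * (M₁ : ℝ) ^ 2 ≤ N := by
    refine le_trans ?_ hMN
    nlinarith
  have hN1 : (8 : ℝ) ≤ N := by linarith
  have hMx : (M₁ : ℝ) ≤ x := by
    nlinarith
  have hfrb : ∀ m ∈ Icc (-(M₁ : ℤ)) M₁, |fr α m| ≤ (x : ℝ) ^ 4 := by
    intro m hm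
    refine (KRB_frb α m M₁ hα0 hα hM₁ hm).trans ?_
    have h1 : (16 : ℝ) ^ 3 ≤ (x : ℝ) ^ 3 := by gcongr
    calc 8 * (M₁ : ℝ) ≤ 8 * x := by linarith
      _ ≤ (x : ℝ) ^ 3 * x := by nlinarith
      _ = (x : ℝ) ^ 4 := by ring
  have htb : |t| ≤ (x : ℝ) ^ 4 := by
    refine ht.trans ?_
    have h1 : (x : ℝ) ^ (η / 3) ≤ x := by
      calc (x : ℝ) ^ (η / 3) ≤ (x : ℝ) ^ (1 : ℝ) := Real.rpow_le_rpow_of_exponent_le (by linarith) (by linarith)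
        _ = x := Real.rpow_one _
    calc (M₁ : ℝ) ^ 2 * (x : ℝ) ^ (η / 3) ≤ (x : ℝ) ^ 2 * x := by gcongr
      _ ≤ (x : ℝ) ^ 2 * x * x := by
        have : (0 : ℝ) ≤ (x : ℝ) ^ 2 * x := by positivity
        nlinarith
      _ = (x : ℝ) ^ 4 := by ring
  have hL0 : 0 < L := by linarith
  obtain ⟨LA, hLA⟩ : ∃ LA, LA = L ^ (A + E + 3) := ⟨_, rfl⟩
  have hLA0 : 0 < LA := by rw [hLA]; positivity
  have hab₁ : a₁ < b₁ := hc₁.1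
  have hab₂ : a₂ < b₂ := hc₂.1
  have hab₃ : a₃ < b₃ := hc₃.1
  have hN8' : (N : ℝ) ≤ 8 * (b₁ * b₂ * b₃) := by exact_mod_cast hN8
  have hN2' : (b₁ : ℝ) * b₂ * b₃ ≤ 2 * N := by exact_mod_cast hN2
  have hb₁0 : (1 : ℝ) ≤ b₁ := by
    have : 1 ≤ b₁ := by omega
    exact_mod_cast this
  have hb₂0 : (1 : ℝ) ≤ b₂ := by
    have : 1 ≤ b₂ := by omega
    exact_mod_cast this
  have hb₃0 : (1 : ℝ) ≤ b₃ := by
    have : 1 ≤ b₃ := by omega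
    exact_mod_cast this
  have hz₀' : (z₀ : ℝ) ^ 2 ≤ 9 * N := by exact_mod_cast hz₀
  have hx4 : (2 : ℝ) * N ≤ (x : ℝ) ^ 4 := by
    calc (2 : ℝ) * N ≤ 2 * (x : ℝ) ^ 2 := by linarith
      _ ≤ (x : ℝ) ^ 2 * (x : ℝ) ^ 2 := by
        have : (16 : ℝ) ^ 2 ≤ (x : ℝ) ^ 2 := by gcongr
        nlinarith
      _ = (x : ℝ) ^ 4 := by ring
  have hlogb : ∀ b : ℝ, 1 ≤ b → b ≤ 2 * N → Real.log b ≤ 3 * L := by
    intro b h1 h2
    have h3 : b ≤ (x : ℝ) ^ 3 := by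
      calc b ≤ 2 * N := h2
        _ ≤ 2 * (x : ℝ) ^ 2 := by linarith
        _ ≤ (x : ℝ) * (x : ℝ) ^ 2 := by
          have : (0 : ℝ) < (x : ℝ) ^ 2 := by positivity
          nlinarith
        _ = (x : ℝ) ^ 3 := by ring
    have h4 := Real.log_le_log (by linarith) h3
    rw [Real.log_pow] at h4
    rw [hLdef]
    exact_mod_cast h4
  have hlogE : ∀ b : ℝ, 1 ≤ b → b ≤ 2 * N → (1 + Real.log b) ^ E ≤ 4 ^ E * L ^ E := by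
    intro b h1 h2
    rw [← mul_pow]
    have h3 := hlogb b h1 h2
    have h4 := Real.log_nonneg h1
    gcongr
    linarith
  have hfam := KRB_fam hUHX x q B ξ i₁ i α t hDta'
  -- one of the Moebius cells is long
  have hlong : ∀ (a b a' b' : ℕ), Cel a b → a' < b' → (x : ℝ) ^ ε ≤ b → (b : ℝ) * b' * b₃ ≤ 2 * N → (N : ℝ) ≤ 8 * (b * b' * b₃) →
      ∑ m ∈ T, ‖Sh (ct z₀ (wm Z)) (HX ξ i₁ i (fr α m)) t a b‖ ^ 2 * ‖Sh (ct z₀ (wm Z)) (HX ξ i₁ i (fr α m)) t a' b'‖ ^ 2 *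
        ‖Sh (w1 Z) (HX ξ i₁ i (fr α m)) t a₃ b₃‖ ^ 2 ≤ (N : ℝ) ^ 2 / L ^ A := by
    intro a b a' b' hc hc' hb hbN hbN8
    by_cases hza : z₀ ≤ a
    · have h1 : ∑ m ∈ T, ‖Sh (ct z₀ (wm Z)) (HX ξ i₁ i (fr α m)) t a b‖ ^ 2 * ‖Sh (ct z₀ (wm Z)) (HX ξ i₁ i (fr α m)) t a' b'‖ ^ 2 *
          ‖Sh (w1 Z) (HX ξ i₁ i (fr α m)) t a₃ b₃‖ ^ 2 = 0 := by
        refine sum_eq_zero fun m _ => ?_
        rw [KRB_zero (ct z₀ (wm Z)) (HX ξ i₁ i (fr α m)) t a b (fun z _ hz => by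
          unfold ct
          rw [if_neg]
          omega)]
        simp
      rw [h1]
      positivity
    push Not at hza
    have hb1 : b ≠ 1 := by
      rintro rfl
      norm_num at hb
      linarith
    have hb2 : b ≤ 2 * a := by
      obtain ⟨h1, h2⟩ := hc
      omega
    have hab : a < b := hc.1
    have hb2' : (b : ℝ) ≤ 2 * a := by exact_mod_cast hb2
    have hb0 : (1 : ℝ) ≤ b := by linarith
    have hb'0 : (1 : ℝ) ≤ b' := by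
      have : 1 ≤ b' := by omega
      exact_mod_cast this
    have hxa : (x : ℝ) ^ (ε / 2) ≤ a := by linarith
    have hab' : (a : ℝ) ≤ b := by exact_mod_cast hab.le
    have hbb0 : (1 : ℝ) ≤ b' * b₃ := by nlinarith
    have hbN1 : (b : ℝ) ≤ 2 * N := by
      nlinarith
    have hbbN : (b' : ℝ) * b₃ ≤ 2 * N := by nlinarith
    have hbx : b ≤ x ^ 4 := by
      have : (b : ℝ) ≤ (x : ℝ) ^ 4 := by linarith
      exact_mod_cast this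
    have hS : ∀ m ∈ T, ‖Sh (ct z₀ (wm Z)) (HX ξ i₁ i (fr α m)) t a b‖ ≤ b / LA := by
      intro m hm
      rw [KRB_cut hSIZ]
      have h1 := hx₁ x hxx₁ q ξ i₁ i (fr α m) t Z a (min b z₀) hξ hqB hi₁ hi (hinv m) (hfrb m (hT hm)) htb hZ8
        (by rw [← hLdef]; exact hZ) hxa (le_min hab.le hza.le) ((min_le_left _ _).trans hb2) ((min_le_left _ _).trans hbx)
      rw [← hLdef, ← hLA] at h1
      refine h1.trans ?_
      gcongr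
    have hMb : (M₁ : ℝ) ≤ b' * b₃ := by
      have hza' : (a : ℝ) ≤ z₀ := by exact_mod_cast hza.le
      have h1 : (N : ℝ) ≤ 16 * z₀ * (b' * b₃) := by
        calc (N : ℝ) ≤ 8 * (b * b' * b₃) := hbN8
          _ = 8 * b * (b' * b₃) := by ring
          _ ≤ 8 * (2 * z₀) * (b' * b₃) := by
            refine mul_le_mul_of_nonneg_right ?_ (by linarith)
            linarith
          _ = _ := by ring
      have h2 : (N : ℝ) ^ 2 ≤ 256 * (9 * N) * (b' * b₃) ^ 2 := by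
        calc (N : ℝ) ^ 2 ≤ (16 * z₀ * (b' * b₃)) ^ 2 := by gcongr
          _ = 256 * (z₀ : ℝ) ^ 2 * (b' * b₃) ^ 2 := by ring
          _ ≤ 256 * (9 * N) * (b' * b₃) ^ 2 := by gcongr
      have h3 : (N : ℝ) ≤ 2304 * ((b' : ℝ) * b₃) ^ 2 := by
        have h4 : (N : ℝ) * N ≤ N * (2304 * ((b' : ℝ) * b₃) ^ 2) := by
          calc (N : ℝ) * N = (N : ℝ) ^ 2 := by ring
            _ ≤ 256 * (9 * N) * (b' * b₃) ^ 2 := h2
            _ = _ := by ring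
        exact le_of_mul_le_mul_left h4 (by linarith)
      have h5 : (M₁ : ℝ) ^ 2 ≤ ((b' : ℝ) * b₃) ^ 2 := by nlinarith
      exact le_of_sq_le_sq h5 (by linarith)
    have hmv := hMV α (fun m => HX ξ i₁ i (fr α m)) t _ hfam M₁ (ct z₀ (wm Z)) (w1 Z) a' b' a₃ b₃ hM₁ (KRB_ctm z₀ Z) (KRB_w1 Z) (by omega) (by omega)
    have hfinal : K₀ * (N : ℝ) ^ 2 * L ^ (E + 2) / LA ^ 2 ≤ (N : ℝ) ^ 2 / L ^ A := by
      rw [hLA]
      exact KRB_fin L K₀ N A E hL1 hLK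
    have hpt : ∀ m ∈ T, ‖Sh (ct z₀ (wm Z)) (HX ξ i₁ i (fr α m)) t a b‖ ^ 2 * ‖Sh (ct z₀ (wm Z)) (HX ξ i₁ i (fr α m)) t a' b'‖ ^ 2 *
        ‖Sh (w1 Z) (HX ξ i₁ i (fr α m)) t a₃ b₃‖ ^ 2 ≤ (b / LA) ^ 2 * (‖Sh (ct z₀ (wm Z)) (HX ξ i₁ i (fr α m)) t a' b'‖ ^ 2 *
        ‖Sh (w1 Z) (HX ξ i₁ i (fr α m)) t a₃ b₃‖ ^ 2) := by
      intro m hm
      have h1 := hS m hm
      rw [mul_assoc]
      gcongr
    refine (sum_le_sum hpt).trans ?_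
    rw [← mul_sum]
    have h6 : ∑ m ∈ T, ‖Sh (ct z₀ (wm Z)) (HX ξ i₁ i (fr α m)) t a' b'‖ ^ 2 * ‖Sh (w1 Z) (HX ξ i₁ i (fr α m)) t a₃ b₃‖ ^ 2 ≤
        2 * C * ((b' : ℝ) * b₃) ^ 2 * (4 ^ E * L ^ E) := by
      refine (sum_le_sum_of_subset_of_nonneg hT fun m _ _ => by positivity).trans (hmv.trans ?_)
      calc C * (M₁ + b' * b₃) * (b' * b₃) * (1 + Real.log (b' * b₃)) ^ E
          ≤ C * (b' * b₃ + b' * b₃) * (b' * b₃) * (4 ^ E * L ^ E) := by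
            have := hlogE (b' * b₃) hbb0 hbbN
            have h8 := Real.log_nonneg hbb0
            gcongr
        _ = _ := by ring
    refine le_trans ?_ hfinal
    have hLE : L ^ E ≤ L ^ (E + 2) := pow_le_pow_right₀ hL1 (by omega)
    have hbb2 : ((b : ℝ) * (b' * b₃)) ^ 2 ≤ 4 * (N : ℝ) ^ 2 := by
      calc ((b : ℝ) * (b' * b₃)) ^ 2 ≤ (2 * N : ℝ) ^ 2 := by
            refine pow_le_pow_left₀ (by positivity) ?_ 2
            calc (b : ℝ) * (b' * b₃) = b * b' * b₃ := by ring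
              _ ≤ 2 * N := hbN
        _ = 4 * (N : ℝ) ^ 2 := by ring
    calc (b / LA) ^ 2 * (∑ m ∈ T, ‖Sh (ct z₀ (wm Z)) (HX ξ i₁ i (fr α m)) t a' b'‖ ^ 2 * ‖Sh (w1 Z) (HX ξ i₁ i (fr α m)) t a₃ b₃‖ ^ 2)
        ≤ (b / LA) ^ 2 * (2 * C * ((b' : ℝ) * b₃) ^ 2 * (4 ^ E * L ^ E)) := by gcongr
      _ = 2 * C * 4 ^ E * L ^ E * ((b : ℝ) * (b' * b₃)) ^ 2 / LA ^ 2 := by
        field_simp
      _ ≤ 2 * C * 4 ^ E * L ^ (E + 2) * (4 * (N : ℝ) ^ 2) / LA ^ 2 := by gcongr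
      _ = (8 * C * 4 ^ E) * (N : ℝ) ^ 2 * L ^ (E + 2) / LA ^ 2 := by ring
      _ ≤ K₀ * (N : ℝ) ^ 2 * L ^ (E + 2) / LA ^ 2 := by
        have h7 : 8 * C * 4 ^ E ≤ K₀ := by
          rw [hK₀]
          linarith
        gcongr
  rcases le_or_gt ((x : ℝ) ^ ε) b₁ with h1 | h1
  · exact hlong a₁ b₁ a₂ b₂ hc₁ hab₂ h1 hN2' hN8'
  rcases le_or_gt ((x : ℝ) ^ ε) b₂ with h2 | h2
  · have h3 := hlong a₂ b₂ a₁ b₁ hc₂ hab₁ h2 (by linarith [mul_comm (b₁ : ℝ) b₂]) (by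
      have : (b₂ : ℝ) * b₁ * b₃ = b₁ * b₂ * b₃ := by ring
      rw [this]
      exact hN8')
    refine le_trans (le_of_eq ?_) h3
    refine sum_congr rfl fun m _ => ?_
    ring
  · -- both are short
    have hbb : (b₁ : ℝ) * b₂ ≤ (x : ℝ) ^ (2 * ε) := by
      rw [hx2ε]
      exact mul_le_mul h1.le h2.le (by linarith) (by linarith)
    have hx3ε : (x : ℝ) ^ (3 * ε) = (x : ℝ) ^ (2 * ε) * (x : ℝ) ^ ε := by
      rw [← Real.rpow_add hx0]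
      congr 1
      ring
    have hx2pos : 0 < (x : ℝ) ^ (2 * ε) := Real.rpow_pos_of_pos hx0 _
    have hx3pos : 0 < (x : ℝ) ^ (3 * ε) := Real.rpow_pos_of_pos hx0 _
    have hxsub : (x : ℝ) ^ η = (x : ℝ) ^ (η - 3 * ε) * (x : ℝ) ^ (3 * ε) := by
      rw [← Real.rpow_add hx0]
      congr 1
      ring
    have hNb : (N : ℝ) ≤ 8 * (x : ℝ) ^ (2 * ε) * b₃ := by
      calc (N : ℝ) ≤ 8 * (b₁ * b₂ * b₃) := hN8'
        _ ≤ 8 * ((x : ℝ) ^ (2 * ε) * b₃) := by gcongr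
        _ = _ := by ring
    have hM3 : (M₁ : ℝ) ^ 2 * (x : ℝ) ^ (η - 3 * ε) * (x : ℝ) ^ ε ≤ 8 * b₃ := by
      have h4 : (x : ℝ) ^ (2 * ε) * ((M₁ : ℝ) ^ 2 * (x : ℝ) ^ (η - 3 * ε) * (x : ℝ) ^ ε) ≤ (x : ℝ) ^ (2 * ε) * (8 * b₃) := by
        calc (x : ℝ) ^ (2 * ε) * ((M₁ : ℝ) ^ 2 * (x : ℝ) ^ (η - 3 * ε) * (x : ℝ) ^ ε) = (M₁ : ℝ) ^ 2 * (x : ℝ) ^ η := by
              rw [hxsub, hx3ε]; ring
          _ ≤ (N : ℝ) := hMN
          _ ≤ 8 * (x : ℝ) ^ (2 * ε) * b₃ := hNb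
          _ = _ := by ring
      exact le_of_mul_le_mul_left h4 hx2pos
    have hM3' : 32 * ((M₁ : ℝ) ^ 2 * (x : ℝ) ^ (η - 3 * ε)) ≤ b₃ := by
      have h4 : (M₁ : ℝ) ^ 2 * (x : ℝ) ^ (η - 3 * ε) * 256 ≤ (M₁ : ℝ) ^ 2 * (x : ℝ) ^ (η - 3 * ε) * (x : ℝ) ^ ε :=
        mul_le_mul_of_nonneg_left hxε256 (by positivity)
      linarith
    have hone : 1 ≤ (x : ℝ) ^ (η - 3 * ε) := Real.one_le_rpow (by linarith) (by rw [hε]; linarith)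
    have hb₃1 : b₃ ≠ 1 := by
      rintro rfl
      norm_num at hM3'
      nlinarith
    have hb₃2 : b₃ ≤ 2 * a₃ := by
      obtain ⟨h3, h4⟩ := hc₃
      omega
    have hb₃2' : (b₃ : ℝ) ≤ 2 * a₃ := by exact_mod_cast hb₃2
    have hb₃N : (b₃ : ℝ) ≤ 2 * N := by
      have : (1 : ℝ) ≤ b₁ * b₂ := by nlinarith
      nlinarith
    have hb₃x : b₃ ≤ x ^ 4 := by
      have : (b₃ : ℝ) ≤ (x : ℝ) ^ 4 := by linarith
      exact_mod_cast this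
    have htt : |t| ≤ (M₁ : ℝ) ^ 2 * (x : ℝ) ^ (19 * (η - 3 * ε) / 50) := by
      refine ht.trans ?_
      refine mul_le_mul_of_nonneg_left ?_ (by positivity)
      exact Real.rpow_le_rpow_of_exponent_le (by linarith) (by rw [hε]; linarith)
    have hsum := hx₂ x hxx₂ q ξ i₁ i α t Z a₃ b₃ M₁ hDta' (by rw [← hLdef]; exact hZ) hM₁ (by
      have : 0 ≤ (M₁ : ℝ) ^ 2 * (x : ℝ) ^ (η - 3 * ε) := by positivity
      linarith) hab₃.le hb₃2 hb₃x htt T hT hTm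
    rw [← hLdef] at hsum
    have hS : ∀ (a b : ℕ) (m : ℤ), ‖Sh (ct z₀ (wm Z)) (HX ξ i₁ i (fr α m)) t a b‖ ≤ 25 * b := by
      intro a b m
      have h4 := KRB_triv hFFC (ct z₀ (wm Z)) (HX ξ i₁ i (fr α m)) t 1 a b zero_le_one (fun z _ => KRB_ctm z₀ Z z)
        (fun z => KRB_HX q ξ hξ i₁ i _ z)
      linarith
    have hpt : ∀ m ∈ T, ‖Sh (ct z₀ (wm Z)) (HX ξ i₁ i (fr α m)) t a₁ b₁‖ ^ 2 * ‖Sh (ct z₀ (wm Z)) (HX ξ i₁ i (fr α m)) t a₂ b₂‖ ^ 2 *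
        ‖Sh (w1 Z) (HX ξ i₁ i (fr α m)) t a₃ b₃‖ ^ 2 ≤ (25 * b₁) ^ 2 * (25 * b₂) ^ 2 * ‖Sh (w1 Z) (HX ξ i₁ i (fr α m)) t a₃ b₃‖ ^ 2 := by
      intro m _
      have h4 := hS a₁ b₁ m
      have h5 := hS a₂ b₂ m
      gcongr
    refine (sum_le_sum hpt).trans ?_
    rw [← mul_sum]
    have hab₃' : (a₃ : ℝ) ≤ b₃ := by exact_mod_cast hab₃.le
    calc (25 * (b₁ : ℝ)) ^ 2 * (25 * b₂) ^ 2 * ∑ m ∈ T, ‖Sh (w1 Z) (HX ξ i₁ i (fr α m)) t a₃ b₃‖ ^ 2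
        ≤ (25 * (b₁ : ℝ)) ^ 2 * (25 * b₂) ^ 2 * ((a₃ : ℝ) ^ 2 / L ^ (A + 1)) := by gcongr
      _ ≤ (25 * (b₁ : ℝ)) ^ 2 * (25 * b₂) ^ 2 * ((b₃ : ℝ) ^ 2 / L ^ (A + 1)) := by gcongr
      _ = 390625 * ((b₁ : ℝ) * b₂ * b₃) ^ 2 / L ^ (A + 1) := by ring
      _ ≤ 390625 * (2 * (N : ℝ)) ^ 2 / L ^ (A + 1) := by gcongr
      _ = 1562500 * (N : ℝ) ^ 2 / L ^ (A + 1) := by ring
      _ ≤ L * (N : ℝ) ^ 2 / L ^ (A + 1) := by
        have h4 : 1562500 ≤ L := by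
          have : 0 < 8 * C * 4 ^ E := by positivity
          linarith
        gcongr
      _ = (N : ℝ) ^ 2 / L ^ A := by
        rw [pow_succ]
        field_simp
        ring

end Pool.Agent.EU
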